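import Pool.Agent.Helper3.ZM.Down
import Pool.Agent.Helper3.PR.Ful
import Pool.Agent.Helper59.EV.Chain

/-! `ST` at all windows: from `ST` at the window `0` (all systems) to `ST` at the window `c`, by zooms; and from `ST` in
dimension `m - 1` to the window `c` in dimension `m` with loss `1 - s` under `H(c,s)`, by zooms and projections. -/

set_option autoImplicit false

namespace Pool.Agent.Helper3.ZM

open Finset Filter Topology Matrix Pool.Agent.Helper69.RK Pool.Agent.Helper31.EC Pool.Agent.Helper40.EL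
open Pool.Agent.Helper31.EC.Sp
open Pool.Agent.Helper95.LF Pool.Agent.Helper3.LF Pool.Agent.Helper48.NS Pool.Agent.Helper89.LX
open Pool.Agent.Helper3.PR
open Pool.Agent.Helper59.EV (rvol ST)

noncomputable section

variable {S : Sp} {m q D : ℕ}

theorem rvol_eq (s : Sys S m) {A B : Part S} {x : ∀ k, FD (S.F k) (Mon (m + 1) D)}
    (hx : (gau s D).Ad A B x) : rvol s D x = m - ul (fun k => lgd s D x k / (S.F k).n) / 2 := by
  unfold rvol
  have h1 : (fun k => ∑ ω, (x k).l.T.μ ω *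
    (Real.logb 2 (GG (S.dl 1 k) ((x k).g ω) (ptf s k ((x k).l.p.π ω))) / (2 * (S.F k).n))) =
      fun k => (1 / 2) * (lgd s D x k / (S.F k).n) := by
    funext k
    have hn := (S.F k).pos.ne'
    unfold lgd
    rw [Finset.sum_div, Finset.mul_sum]
    refine Finset.sum_congr rfl fun ω _ => ?_
    field_simp
  rw [h1, ul_const_mul _ (lgd_UB s hx)]
  ring

theorem rvol_can (s : Sys S m) {c : ℝ} {x : ∀ k, FD (S.F k) (Mon (m + 1) D)} (hx : IsCan s D c x) :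
    rvol s D x = m - lvol s D c / 2 := by
  rw [rvol_eq s hx.1.1, lvol_eq s hx.1]

/-- `ST` at the window `0` in terms of `lvol` -/
theorem st_lvol (hst : ST D m) (s : Sys S m) : m - lvol s D 0 / 2 ≤ h (s.P.dg 1) s.T := by
  obtain ⟨y, hy⟩ := exists_can s D 0
  have h1 := hst S s y hy
  rw [rvol_can s hy] at h1
  exact h1.trans (h_up1_le _ _ _)

/-- entropies over the labels `kappa_c` do not depend on the label -/
theorem h_kap {s : Sys S m} {c : ℝ} {l l' : Lab S} (hl : IsKap s c l) (hl' : IsKap s c l') (x y : S.L) :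
    h (up1 l x) (up1 l y) = h (up1 l' x) (up1 l' y) := by
  have h1 : h (up1 l x) (up1 l y) = H (up1 l x ⊔ up1 l y) - H (up1 l y) := rfl
  have h2 : h (up1 l' x) (up1 l' y) = H (up1 l' x ⊔ up1 l' y) - H (up1 l' y) := rfl
  rw [h1, h2, ← up1_sup, ← up1_sup, hl.H_eq hl', hl.H_eq hl']

/-- the data of the zoom over the label of the canonical form -/
def zx (s : Sys S m) {c : ℝ} (h0 : 0 ≤ c) (h1 : c < 1) {x : ∀ k, FD (S.F k) (Mon (m + 1) D)} (hx : IsCan s D c x) :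
    ZL s := mk h0 h1 (Gau.Ad.dm (gau s D) hx.1.1)

theorem zx_kap (s : Sys S m) {c : ℝ} (h0 : 0 ≤ c) (h1 : c < 1) {x : ∀ k, FD (S.F k) (Mon (m + 1) D)}
    (hx : IsCan s D c x) : IsKap s c (zx s h0 h1 hx).l := celL_kap h0 h1.le hx.2

theorem zx_c (s : Sys S m) {c : ℝ} (h0 : 0 ≤ c) (h1 : c < 1) {x : ∀ k, FD (S.F k) (Mon (m + 1) D)}
    (hx : IsCan s D c x) : (zx s h0 h1 hx).c = c := rfl

theorem zx_e (s : Sys S m) {c : ℝ} (h0 : 0 ≤ c) (h1 : c < 1) {x : ∀ k, FD (S.F k) (Mon (m + 1) D)}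
    (hx : IsCan s D c x) : (zx s h0 h1 hx).e = 1 - c := rfl

/-- points of the zoom of the canonical form -/
theorem zx_h (s : Sys S m) {c : ℝ} (h0 : 0 ≤ c) (h1 : c < 1) {x : ∀ k, FD (S.F k) (Mon (m + 1) D)}
    (hx : IsCan s D c x) : (1 - c) * h ((zx s h0 h1 hx).sys.P.dg 1) (zx s h0 h1 hx).sys.T =
      h (up1 (lb x) (s.P.dg 1)) (up1 (lb x) s.T) := by
  rw [ZL.h_P, zx_e, h_kap (zx_kap s h0 h1 hx) (show IsKap s c (lb x) from hx.2)]
  have : 1 - c ≠ 0 := by linarith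
  field_simp

/-- volume of the window `0` of the zoom of the canonical form -/
theorem zx_lvol (hD : 1 ≤ D) (s : Sys S m) {c : ℝ} (h0 : 0 ≤ c) (h1 : c < 1)
    {x : ∀ k, FD (S.F k) (Mon (m + 1) D)} (hx : IsCan s D c x) :
    rvol s D x ≤ (1 - c) * (m - lvol (zx s h0 h1 hx).sys D 0 / 2) := by
  have h2 := (zx s h0 h1 hx).lvol_zoom hD
  rw [zx_e, zx_c] at h2
  rw [rvol_can s hx]
  linarith

/-- `ST` AT ALL WINDOWS -/
theorem win_st (hD : 1 ≤ D) (hst : ST D m) (s : Sys S m) {c : ℝ} (h0 : 0 ≤ c) (h1 : c < 1)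
    {x : ∀ k, FD (S.F k) (Mon (m + 1) D)} (hx : IsCan s D c x) :
    rvol s D x ≤ h (up1 (lb x) (s.P.dg 1)) (up1 (lb x) s.T) := by
  have h2 := zx_lvol hD s h0 h1 hx
  have h3 := st_lvol hst (zx s h0 h1 hx).sys
  rw [← zx_h s h0 h1 hx]
  exact h2.trans (mul_le_mul_of_nonneg_left h3 (by linarith))

/-- `ST` in dimension `q` and `H(0,s)`: dimension `q + 1`, window `0`, loss `1 - s` -/
theorem pr_st (hst : ST D q) (s : Sys S (q + 1)) {σ : ℝ} (hσ : Hf s D 0 σ) :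
    ((q + 1 : ℕ) : ℝ) - lvol s D 0 / 2 ≤ h (s.P.dg 1) s.T + (1 - σ) := by
  obtain ⟨τ, hτ, h1⟩ := lvol_pr s le_rfl zero_lt_one hσ (lt_or_ge 0 σ)
  have h2 := st_lvol hst (prT s τ hτ)
  have h3 : h ((prT s τ hτ).P.dg 1) (prT s τ hτ).T ≤ h (s.P.dg 1) s.T := h_mono (pr_P_dg _ _ _ _ _ 1)
  push_cast
  linarith

/-- `ST` IN DIMENSION `q` AND `H(c,s)`: DIMENSION `q + 1`, WINDOW `c`, LOSS `1 - s` -/
theorem win_pr (hD : 1 ≤ D) (hst : ST D q) (s : Sys S (q + 1)) {c σ : ℝ} (h0 : 0 ≤ c) (h1 : c < 1)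
    (hσ : Hf s D c σ) {x : ∀ k, FD (S.F k) (Mon (q + 1 + 1) D)} (hx : IsCan s D c x) :
    rvol s D x ≤ h (up1 (lb x) (s.P.dg 1)) (up1 (lb x) s.T) + (1 - σ) := by
  have h2 := zx_lvol hD s h0 h1 hx
  have h3 : Hf (zx s h0 h1 hx).sys D 0 ((σ - c) / (1 - c)) := Hf_mk h0 h1 hσ hx.1
  have h4 := mul_le_mul_of_nonneg_left (pr_st hst (zx s h0 h1 hx).sys h3) (show 0 ≤ 1 - c by linarith)
  rw [mul_add, zx_h] at h4
  have h5 : (1 - c) * (1 - (σ - c) / (1 - c)) = 1 - σ := by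
    have : 1 - c ≠ 0 := by linarith
    field_simp
    ring
  rw [h5] at h4
  exact h2.trans h4

end

end Pool.Agent.Helper3.ZM
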