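import Pool.Agent.Helper3.ZM.Aff
import Pool.Agent.Helper3.LF.Eta
import Pool.Agent.Helper3.PR.Ub

/-! Volume determinants under homotheties: forms above the identity. -/

set_option autoImplicit false

namespace Pool.Agent.Helper3.ZM

open MvPolynomial Matrix Pool.Agent.Helper95.LF Pool.Agent.Helper3.LF Pool.Agent.Helper48.NS Pool.Agent.Helper3.PR

variable {N m D : ℕ}

open Classical in
/-- a coordinate as a monomial -/
noncomputable def sng (hD : 1 ≤ D) (i : Fin N) : Mon N D :=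
  ⟨fun j => if j = i then ⟨1, by omega⟩ else 0, by
    have h1 : ∀ j : Fin N, ((if j = i then (⟨1, by omega⟩ : Fin (D + 1)) else 0 : Fin (D + 1)) : ℕ) =
        if j = i then 1 else 0 := by
      intro j
      split_ifs <;> rfl
    simp only [h1]
    rw [Finset.sum_ite_eq' Finset.univ i, if_pos (Finset.mem_univ i)]
    exact hD⟩

theorem sng_mon (hD : 1 ≤ D) (i : Fin N) : (sng hD i).mon = X i := by
  classical
  unfold Mon.mon MvPolynomial.X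
  have h1 : (sng hD i).ex = Finsupp.single i 1 := by
    ext j
    rw [Mon.ex_apply]
    unfold sng
    by_cases hj : j = i
    · simp [hj]
    · simp [hj]
  rw [h1]

theorem dd_sng (hD : 1 ≤ D) (a i : Fin N) (p : Fin N → ℝ) :
    dd a p (sng hD i) = if i = a then 1 else 0 := by
  classical
  unfold dd
  rw [sng_mon]
  by_cases h : i = a
  · rw [h, pderiv_X_self, map_one, if_pos rfl]
  · rw [pderiv_X_of_ne h, map_zero, if_neg h]

/-- the gradients of the coordinates -/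
theorem Wd_sng (hD : 1 ≤ D) (p : Fin (m + 1) → ℝ) (e : Fin m → ℝ) (i : Fin m) :
    (Wd m D p *ᵥ e) (sng hD i.succ) = e i := by
  classical
  have h1 : (Wd m D p *ᵥ e) (sng hD i.succ) = ∑ a, dd a.succ p (sng hD i.succ) * e a := rfl
  rw [h1]
  have h2 : ∀ a : Fin m, dd a.succ p (sng hD i.succ) * e a = if a = i then e i else 0 := by
    intro a
    rw [dd_sng]
    by_cases h : a = i
    · rw [h, if_pos rfl, if_pos rfl, one_mul]
    · rw [if_neg h, if_neg (fun h' => h (Fin.succ_injective _ h').symm), zero_mul]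
  rw [Finset.sum_congr rfl fun a _ => h2 a, Finset.sum_ite_eq' Finset.univ i, if_pos (Finset.mem_univ i)]

theorem sng_inj (hD : 1 ≤ D) {i j : Fin m} (h : sng (D := D) hD i.succ = sng hD j.succ) : i = j := by
  have h1 := congrArg Mon.mon h
  rw [sng_mon, sng_mon] at h1
  exact Fin.succ_injective _ (X_injective h1)

/-- forms above the identity have unit gradients -/
theorem Jf_ge_self (hD : 1 ≤ D) (r : ℝ) {B : Matrix (Mon (m + 1) D) (Mon (m + 1) D) ℝ}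
    (hB : ∀ x, x ⬝ᵥ x ≤ x ⬝ᵥ (B *ᵥ x)) (p : Fin (m + 1) → ℝ) (e : Fin m → ℝ) :
    e ⬝ᵥ e ≤ e ⬝ᵥ (Jf r B p *ᵥ e) := by
  classical
  rw [Jf_qf]
  have h0 : ∀ x : Mon (m + 1) D → ℝ, 0 ≤ x ⬝ᵥ (B *ᵥ x) := fun x => (self_nonneg' x).trans (hB x)
  refine le_trans ?_ (Finset.single_le_sum (f := fun j : Fin (m + 1) → Fin (D + 1) =>
    (Wd m D (nodp D p r j) *ᵥ e) ⬝ᵥ (B *ᵥ (Wd m D (nodp D p r j) *ᵥ e))) (fun j _ => h0 _)
    (Finset.mem_univ (fun _ => 0)))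
  refine le_trans ?_ (hB _)
  set w := Wd m D (nodp D p r fun _ => 0) *ᵥ e with hw
  have h1 : e ⬝ᵥ e = ∑ μ ∈ (Finset.univ : Finset (Fin m)).image (fun i => sng (D := D) hD i.succ), w μ * w μ := by
    rw [Finset.sum_image (fun i _ j _ h => sng_inj hD h)]
    unfold dotProduct
    refine Finset.sum_congr rfl fun i _ => ?_
    rw [hw, Wd_sng]
  rw [h1]
  exact Finset.sum_le_sum_of_subset_of_nonneg (Finset.subset_univ _) fun μ _ _ => mul_self_nonneg _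

/-- gain of volume under homotheties -/
theorem GG_gain (hD : 1 ≤ D) (r δ : ℝ) (hδ : 0 < δ) (A B : Matrix (Mon (m + 1) D) (Mon (m + 1) D) ℝ)
    (hA : PdM A) (hB : B.IsSymm) (hB1 : ∀ x, x ⬝ᵥ x ≤ x ⬝ᵥ (B *ᵥ x)) (o : Fin (m + 1) → ℝ)
    (p : Fin (m + 1) → ℝ) (h : ∀ x, x ⬝ᵥ (afm o δ⁻¹ B *ᵥ x) ≤ x ⬝ᵥ (A *ᵥ x)) :
    GG (δ⁻¹ * r) B (aff o δ⁻¹ p) ≤ (2 * δ ^ 2) ^ m * GG r A p := by
  have hB0 : ∀ x : Mon (m + 1) D → ℝ, 0 ≤ x ⬝ᵥ (B *ᵥ x) := fun x => (self_nonneg' x).trans (hB1 x)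
  have h1 := det_le_pow (one_Jf_pd r hA.1 hA.nonneg p) (one_Jf_pd (δ⁻¹ * r) hB hB0 (aff o δ⁻¹ p))
    (K := 2 * δ ^ 2) (by positivity) (fun x => by
      rw [dv_add, dv_add, one_dv]
      have h2 := Jf_ge_self hD (δ⁻¹ * r) hB1 (aff o δ⁻¹ p) x
      have h3 : x ⬝ᵥ (Jf r (afm o δ⁻¹ B) p *ᵥ x) ≤ x ⬝ᵥ (Jf r A p *ᵥ x) := Jf_mono r h p x
      rw [Jf_afm, dv_smul] at h3
      have h4 := self_nonneg' x
      have h5 : x ⬝ᵥ (Jf (δ⁻¹ * r) B (aff o δ⁻¹ p) *ᵥ x) ≤ δ ^ 2 * (x ⬝ᵥ (Jf r A p *ᵥ x)) := by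
        have h6 : x ⬝ᵥ (Jf (δ⁻¹ * r) B (aff o δ⁻¹ p) *ᵥ x) =
            δ ^ 2 * (δ⁻¹ ^ 2 * (x ⬝ᵥ (Jf (δ⁻¹ * r) B (aff o δ⁻¹ p) *ᵥ x))) := by
          field_simp
        rw [h6]
        exact mul_le_mul_of_nonneg_left h3 (by positivity)
      nlinarith [mul_nonneg (sq_nonneg δ) h4])
  rw [Fintype.card_fin] at h1
  exact h1

end Pool.Agent.Helper3.ZM
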