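import Pool.Agent.Helper3.ZM.Frm

/-! Labels with cells: from a label of the window `c` to the data of a zoom. -/

set_option autoImplicit false

namespace Pool.Agent.Helper3.ZM

open Finset Filter Topology Matrix Pool.Agent.Helper69.RK Pool.Agent.Helper31.EC Pool.Agent.Helper40.EL
open Pool.Agent.Helper31.EC.Sp
open Pool.Agent.Helper95.LF Pool.Agent.Helper3.LF Pool.Agent.Helper48.NS Pool.Agent.Helper89.LX
open Pool.Agent.Helper3.PR
open Pool.Agent.Helper59.LF (ladd fadd DM_ladd fadd_info_ge)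

noncomputable section

variable {S : Sp} {m : ℕ}

/-- the cells of the window -/
def cel (s : Sys S m) (c : ℝ) (h0 : 0 ≤ c) (k : ℕ) (ω : (S.F k).Ω) : (Fin 1 → ℤ) × (Fin m → ℤ) :=
  (s.t.cellv c k ω, (s.bc c h0).cellv c k ω)

theorem cel_bdd (s : Sys S m) (c : ℝ) (h0 : 0 ≤ c) : Bdd (S := S) (cel s c h0) :=
  (s.t.bdd c).pair ((s.bc c h0).bdd c)

theorem cl_cel (s : Sys S m) (c : ℝ) (h0 : 0 ≤ c) : cl (cel_bdd s c h0).toInf = s.t.dg c ⊔ s.P.dg c := by
  rw [← io_eq]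
  have h1 : io (cel s c h0) = io (fun k ω => s.t.cellv c k ω) ⊔ io (fun k ω => (s.bc c h0).cellv c k ω) :=
    io_pair (s.t.bdd c) ((s.bc c h0).bdd c)
  have h2 : io (fun k ω => (s.bc c h0).cellv c k ω) = s.P.dg c := s.bc_dg c h0 le_rfl
  rw [h1, h2]
  rfl

/-- the partition of the cells in the space of a label -/
def celW (s : Sys S m) (c : ℝ) (h0 : 0 ≤ c) (l : Lab S) (k : ℕ) : Setoid (l k).T.Ω :=
  Setoid.comap (l k).p.π (Setoid.ker (cel s c h0 k))

theorem cel_nul {s : Sys S m} {c : ℝ} (h0 : 0 ≤ c) (l : Lab S) {A : S.Inf}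
    (hA : s.t.dg c ⊔ s.P.dg c ≤ cl A) :
    Nul S (fun k => h (fc (celW s c h0 l k)) ((l k).v ⊔ (l k).p.map (rpI A k))) := by
  have h1 : PLe (rpI (cel_bdd s c h0).toInf) (rpI A) := PLe_rpI.mpr (by rw [cl_cel]; exact hA)
  apply Nul.of_le h1 (Eventually.of_forall fun k => h_nonneg _ _)
  refine Eventually.of_forall fun k => ?_
  have h2 : (fc (celW s c h0 l k) : FL (l k).T) = (l k).p.map (rpI (cel_bdd s c h0).toInf k) := rfl
  rw [h2]
  refine (h_anti le_sup_right).trans ?_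
  rw [(l k).p.h_map]

/-- a label with the cells -/
def celL (s : Sys S m) (c : ℝ) (h0 : 0 ≤ c) (l : Lab S) : Lab S := ladd l (celW s c h0 l)

theorem celL_DM {s : Sys S m} {c : ℝ} (h0 : 0 ≤ c) (h1 : c ≤ 1) {l : Lab S} (hl : DMc s c l) :
    DMc s c (celL s c h0 l) := by
  apply DM_ladd hl
  · apply cel_nul h0 l (A := Inf.sup (Inf.sup (s.Ia 1) (s.Ix 1)) (s.It c))
    rw [cl_A]
    exact sup_le le_sup_right (P_le_A s h1)
  · apply cel_nul h0 l (A := Inf.sup (s.IP 1) (s.It 1))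
    rw [cl_B]
    exact sup_le (t_le_B s h1) (P_le_B s h1)

theorem celL_kap {s : Sys S m} {c : ℝ} (h0 : 0 ≤ c) (h1 : c ≤ 1) {l : Lab S} (hl : IsKap s c l) :
    IsKap s c (celL s c h0 l) := by
  apply isKap_of_info (celL_DM h0 h1 hl.dm)
  rw [← hl.info_eq]
  have u1 := Lab.DM.ub hl.dm (cA_Bd s c)
  have u2 := Lab.DM.ub (celL_DM h0 h1 hl.dm) (cA_Bd s c)
  refine le_of_tendsto_of_tendsto (ul_tendsto u1) (ul_tendsto u2) (Eventually.of_forall fun k => ?_)
  exact div_le_div_of_nonneg_right (fadd_info_ge (l k) (celW s c h0 l k)) (S.F k).pos.le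

/-- the data of a zoom -/
def mk {s : Sys S m} {c : ℝ} (h0 : 0 ≤ c) (h1 : c < 1) {l : Lab S} (hl : DMc s c l) : ZL s where
  l := celL s c h0 l
  c := c
  h0 := h0
  h1 := h1
  dm := celL_DM h0 h1.le hl
  cell := fun k ω ω' _ _ hV _ => by
    have h2 : (l k).V ω ω' ∧ cel s c h0 k ((l k).p.π ω) = cel s c h0 k ((l k).p.π ω') := hV
    have h3 := h2.2
    unfold cel at h3
    rw [Prod.mk.injEq] at h3
    exact h3

/-- the trivial label is double Markov -/
theorem triv_DM {S : Sp} (A B : Part S) : Lab.DM (fun k => FLab.triv (S.F k)) A B := by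
  have h0 : ∀ A : Part S, Nul S (fun k => (FLab.triv (S.F k)).leak (A k)) := by
    intro A
    have h1 : (fun k => (FLab.triv (S.F k)).leak (A k)) = fun _ => 0 := by
      funext k
      exact FLab.triv_leak _
    rw [h1]
    show Tendsto (fun k => (0 : ℝ) / (S.F k).n) UF (𝓝 0)
    simp only [zero_div]
    exact tendsto_const_nhds
  exact ⟨h0 A, h0 B⟩

end

end Pool.Agent.Helper3.ZM
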