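import Pool.Agent.Helper3.PR.Sub

/-! Homotheties `p ↦ o + δ p` in polynomials and forms: exact transformation rules. -/

set_option autoImplicit false

namespace Pool.Agent.Helper3.ZM

open MvPolynomial Matrix Pool.Agent.Helper95.LF Pool.Agent.Helper3.LF Pool.Agent.Helper48.NS

variable {N m D : ℕ}

/-- the homothety -/
def aff (o : Fin N → ℝ) (δ : ℝ) (p : Fin N → ℝ) : Fin N → ℝ := fun i => o i + δ * p i

/-- the substitution -/
noncomputable def afs (o : Fin N → ℝ) (δ : ℝ) : MvPolynomial (Fin N) ℝ →ₐ[ℝ] MvPolynomial (Fin N) ℝ :=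
  aeval fun i => C (o i) + C δ * X i

theorem afs_C (o : Fin N → ℝ) (δ c : ℝ) : afs o δ (C c) = C c := by
  unfold afs
  rw [aeval_C]
  rfl

theorem afs_X (o : Fin N → ℝ) (δ : ℝ) (i : Fin N) : afs o δ (X i) = C (o i) + C δ * X i := by
  unfold afs
  rw [aeval_X]

theorem eval_afs (o : Fin N → ℝ) (δ : ℝ) (p : Fin N → ℝ) (f : MvPolynomial (Fin N) ℝ) :
    eval p (afs o δ f) = eval (aff o δ p) f := by
  induction f using MvPolynomial.induction_on with
  | C c => rw [afs_C, eval_C, eval_C]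
  | add f g hf hg => rw [map_add, map_add, map_add, hf, hg]
  | mul_X f n hf =>
    rw [map_mul, map_mul, map_mul, hf, eval_X, afs_X, map_add, map_mul, eval_C, eval_C, eval_X]
    rfl

theorem afs_deg (o : Fin N → ℝ) (δ : ℝ) (f : MvPolynomial (Fin N) ℝ) (d : ℕ)
    (hf : f.totalDegree ≤ d) : (afs o δ f).totalDegree ≤ d := by
  rw [f.as_sum, map_sum]
  refine totalDegree_finsetSum_le fun s hs => ?_
  unfold afs
  rw [aeval_monomial]
  refine (totalDegree_mul _ _).trans ?_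
  have e1 : (algebraMap ℝ (MvPolynomial (Fin N) ℝ)) (coeff s f) = C (coeff s f) := rfl
  rw [e1, totalDegree_C, zero_add, Finsupp.prod_fintype _ _ (fun _ => pow_zero _)]
  refine (totalDegree_finsetProd _ _).trans ?_
  have h1 : (s.sum fun _ e => e) ≤ d := (le_totalDegree hs).trans hf
  rw [Finsupp.sum_fintype _ _ (fun _ => rfl)] at h1
  refine le_trans (Finset.sum_le_sum fun i _ => ?_) h1
  refine (totalDegree_pow _ _).trans ?_
  have h2 : (C (o i) + C δ * X i : MvPolynomial (Fin N) ℝ).totalDegree ≤ 1 := by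
    refine (totalDegree_add _ _).trans (max_le ?_ ?_)
    · rw [totalDegree_C]; exact zero_le_one
    · refine (totalDegree_mul _ _).trans ?_
      rw [totalDegree_C, totalDegree_X]
  calc s i * _ ≤ s i * 1 := Nat.mul_le_mul_left _ h2
    _ = s i := mul_one _

/-- chain rule -/
theorem pderiv_afs (o : Fin N → ℝ) (δ : ℝ) (a : Fin N) (f : MvPolynomial (Fin N) ℝ) :
    pderiv a (afs o δ f) = C δ * afs o δ (pderiv a f) := by
  classical
  induction f using MvPolynomial.induction_on with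
  | C c => rw [afs_C, pderiv_C, map_zero, mul_zero]
  | add f g hf hg => rw [map_add, map_add, map_add, hf, hg, map_add, mul_add]
  | mul_X f n hf =>
    rw [map_mul, pderiv_mul, hf, pderiv_mul, map_add, map_mul, map_mul, afs_X]
    have e1 : pderiv a (C (o n) + C δ * X n : MvPolynomial (Fin N) ℝ) = C δ * afs o δ (pderiv a (X n)) := by
      rw [map_add, pderiv_C, zero_add, pderiv_C_mul]
      by_cases h : n = a
      · rw [h, pderiv_X_self, map_one]
      · rw [pderiv_X_of_ne h, map_zero]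
    rw [e1]
    ring

/-- the matrix of the substitution -/
noncomputable def MM (D : ℕ) (o : Fin N → ℝ) (δ : ℝ) : Matrix (Mon N D) (Mon N D) ℝ :=
  Matrix.of fun a b => coeff a.ex (afs o δ b.mon)

theorem pol_MM (o : Fin N → ℝ) (δ : ℝ) (c : Mon N D → ℝ) : pol (MM D o δ *ᵥ c) = afs o δ (pol c) := by
  obtain ⟨c', hc'⟩ := exists_pol (D := D) (afs o δ (pol c)) (afs_deg o δ _ D (pol_deg c))
  rw [hc']
  congr 1
  funext a
  rw [← coeff_pol c' a, ← hc']
  unfold pol
  rw [map_sum, coeff_sum]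
  unfold Matrix.mulVec dotProduct
  refine Finset.sum_congr rfl fun b _ => ?_
  rw [map_mul, afs_C, coeff_C_mul, mul_comm]
  rfl

/-- monomials at the image point -/
theorem vv_aff (o : Fin N → ℝ) (δ : ℝ) (p : Fin N → ℝ) :
    (vv (aff o δ p) : Mon N D → ℝ) = (MM D o δ).transpose *ᵥ vv p := by
  funext b
  have h1 : ∀ c : Mon N D → ℝ, c ⬝ᵥ vv (aff o δ p) = c ⬝ᵥ ((MM D o δ).transpose *ᵥ vv p) := by
    intro c
    rw [← eval_pol, ← eval_afs, ← pol_MM, eval_pol, Matrix.dotProduct_mulVec, Matrix.vecMul_transpose]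
  have h2 := h1 (Pi.single b 1)
  rwa [single_one_dotProduct, single_one_dotProduct] at h2

/-- gradients of monomials at the image point -/
theorem dd_aff (o : Fin N → ℝ) (δ : ℝ) (i : Fin N) (p : Fin N → ℝ) :
    (MM D o δ).transpose *ᵥ dd i p = δ • (dd i (aff o δ p) : Mon N D → ℝ) := by
  funext b
  have h1 : ∀ c : Mon N D → ℝ, c ⬝ᵥ ((MM D o δ).transpose *ᵥ dd i p) = c ⬝ᵥ (δ • dd i (aff o δ p)) := by
    intro c
    rw [Matrix.dotProduct_mulVec, Matrix.vecMul_transpose, ← eval_pderiv_pol, pol_MM, pderiv_afs, map_mul, eval_C,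
      eval_afs, eval_pderiv_pol, dotProduct_smul, smul_eq_mul]
  have h2 := h1 (Pi.single b 1)
  rwa [single_one_dotProduct, single_one_dotProduct] at h2

/-- the form on the space of the points `p` which is the form `A` at the image points -/
noncomputable def afm (o : Fin N → ℝ) (δ : ℝ) (A : Matrix (Mon N D) (Mon N D) ℝ) : Matrix (Mon N D) (Mon N D) ℝ :=
  MM D o δ * A * (MM D o δ).transpose

theorem afm_qf (o : Fin N → ℝ) (δ : ℝ) (A : Matrix (Mon N D) (Mon N D) ℝ) (x : Mon N D → ℝ) :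
    x ⬝ᵥ (afm o δ A *ᵥ x) = ((MM D o δ).transpose *ᵥ x) ⬝ᵥ (A *ᵥ ((MM D o δ).transpose *ᵥ x)) := by
  unfold afm
  rw [← Matrix.mulVec_mulVec, ← Matrix.mulVec_mulVec, Matrix.dotProduct_mulVec, ← Matrix.mulVec_transpose]

theorem afm_symm (o : Fin N → ℝ) (δ : ℝ) {A : Matrix (Mon N D) (Mon N D) ℝ} (hA : A.IsSymm) :
    (afm o δ A).IsSymm := by
  unfold Matrix.IsSymm afm
  rw [Matrix.transpose_mul, Matrix.transpose_mul, Matrix.transpose_transpose, hA.eq, Matrix.mul_assoc]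

theorem afm_nonneg (o : Fin N → ℝ) (δ : ℝ) {A : Matrix (Mon N D) (Mon N D) ℝ}
    (hA : ∀ x, 0 ≤ x ⬝ᵥ (A *ᵥ x)) (x : Mon N D → ℝ) : 0 ≤ x ⬝ᵥ (afm o δ A *ᵥ x) := by
  rw [afm_qf]
  exact hA _

theorem nodp_aff (o : Fin N → ℝ) (δ : ℝ) (p : Fin N → ℝ) (r : ℝ) (j : Fin N → Fin (D + 1)) :
    aff o δ (nodp D p r j) = nodp D (aff o δ p) (δ * r) j := by
  funext i
  unfold aff nodp
  ring

/-- size of the transformed form -/
theorem phi_afm (o : Fin N → ℝ) (δ : ℝ) (A : Matrix (Mon N D) (Mon N D) ℝ) (r : ℝ) (p : Fin N → ℝ) :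
    phi r (afm o δ A) p = phi (δ * r) A (aff o δ p) := by
  unfold phi
  refine Finset.sum_congr rfl fun j _ => ?_
  rw [afm_qf, ← vv_aff, nodp_aff]

/-- gradients of the transformed form -/
theorem dd_afm (o : Fin N → ℝ) (δ : ℝ) (A : Matrix (Mon N D) (Mon N D) ℝ) (i j : Fin N) (p : Fin N → ℝ) :
    dd i p ⬝ᵥ (afm o δ A *ᵥ dd j p) = δ ^ 2 * (dd i (aff o δ p) ⬝ᵥ (A *ᵥ dd j (aff o δ p))) := by
  unfold afm
  rw [← Matrix.mulVec_mulVec, ← Matrix.mulVec_mulVec, Matrix.dotProduct_mulVec, ← Matrix.mulVec_transpose, dd_aff,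
    dd_aff, Matrix.mulVec_smul, dotProduct_smul, smul_dotProduct, smul_eq_mul, smul_eq_mul]
  ring

theorem gam_afm (o : Fin N → ℝ) (δ : ℝ) (A : Matrix (Mon N D) (Mon N D) ℝ) (r : ℝ) (p : Fin N → ℝ) :
    gam r (afm o δ A) p = δ ^ 2 * gam (δ * r) A (aff o δ p) := by
  unfold gam
  rw [Finset.mul_sum]
  refine Finset.sum_congr rfl fun i _ => ?_
  rw [Finset.mul_sum]
  refine Finset.sum_congr rfl fun j _ => ?_
  rw [dd_afm, nodp_aff]

/-- the gradient matrix of the transformed form -/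
theorem Jf_afm (o : Fin (m + 1) → ℝ) (δ : ℝ) (A : Matrix (Mon (m + 1) D) (Mon (m + 1) D) ℝ) (r : ℝ)
    (p : Fin (m + 1) → ℝ) : Jf r (afm o δ A) p = δ ^ 2 • Jf (δ * r) A (aff o δ p) := by
  unfold Jf
  rw [Finset.smul_sum]
  refine Finset.sum_congr rfl fun j _ => ?_
  ext a b
  rw [Matrix.smul_apply, smul_eq_mul, W_apply, W_apply, dd_afm, nodp_aff]

end Pool.Agent.Helper3.ZM
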