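import Pool.Agent.Helper3.ZM.Mk

/-! Forms of the window `c` as forms of the window `0` of the zoom: `H(c,s)` and `H(0,(s-c)/(1-c))`. -/

set_option autoImplicit false

namespace Pool.Agent.Helper3.ZM

open Finset Filter Topology Matrix Pool.Agent.Helper69.RK Pool.Agent.Helper31.EC Pool.Agent.Helper40.EL
open Pool.Agent.Helper31.EC.Sp
open Pool.Agent.Helper95.LF Pool.Agent.Helper3.LF Pool.Agent.Helper48.NS Pool.Agent.Helper89.LX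
open Pool.Agent.Helper3.PR

noncomputable section

variable {S : Sp} {m D : ℕ}

namespace ZL

variable {s : Sys S m} (Z : ZL s)

/-- forms of the label as forms of the zoom -/
def dfm (g : ∀ k, (Z.l k).T.Ω → Matrix (Mon (m + 1) D) (Mon (m + 1) D) ℝ) (k : ℕ) (ω : (Z.l k).T.Ω) :
    Matrix (Mon (m + 1) D) (Mon (m + 1) D) ℝ := 1 + afm (Z.oo k ω) (S.dl Z.c k) (g k ω)

/-- the trivial label of the zoom -/
def tl : Lab Z.sp := fun k => FLab.triv (Z.sp.F k)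

section

variable (g : ∀ k, (Z.l k).T.Ω → Matrix (Mon (m + 1) D) (Mon (m + 1) D) ℝ)
  (hm : ∀ k ω ω', (Z.l k).T.μ ω ≠ 0 → (Z.l k).T.μ ω' ≠ 0 → (Z.l k).V ω ω' → (Z.l k).T.Z ω ω' → g k ω = g k ω')
  (h1 : ∀ᶠ k in UF, ∀ ω, (Z.l k).T.μ ω ≠ 0 → (g k ω).IsSymm ∧ ∀ x, x ⬝ᵥ x ≤ qf (g k ω) x)

include hm in
theorem dfm_meas (k : ℕ) (ω ω' : (Z.tl k).T.Ω) (h : (Z.tl k).T.μ ω ≠ 0) (h' : (Z.tl k).T.μ ω' ≠ 0)
    (_ : (Z.tl k).V ω ω') (hZ : (Z.tl k).T.Z ω ω') : Z.dfm g k ω = Z.dfm g k ω' := by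
  have a : (Z.l k).T.μ ω ≠ 0 := h
  have a' : (Z.l k).T.μ ω' ≠ 0 := h'
  have c : (Z.l k).V ω ω' ∧ (Z.l k).T.Z ω ω' := hZ
  have e1 := hm k ω ω' a a' c.1 c.2
  have e2 := Z.oo_meas k ω ω' a a' c.1 c.2
  unfold dfm
  rw [e1, e2]

include h1 in
theorem dfm_ge : ∀ᶠ k in UF, ∀ ω : (Z.tl k).T.Ω, (Z.tl k).T.μ ω ≠ 0 →
      (Z.dfm g k ω).IsSymm ∧ ∀ x, x ⬝ᵥ x ≤ qf (Z.dfm g k ω) x := by
  filter_upwards [h1] with k hk ω hω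
  obtain ⟨g1, g2⟩ := hk ω hω
  unfold dfm
  refine ⟨Matrix.isSymm_one.add (afm_symm _ _ g1), fun x => ?_⟩
  rw [qf_add, qf_one]
  have h2 := afm_nonneg (Z.oo k ω) (S.dl Z.c k) (A := g k ω) (fun v => (dot_self_nonneg v).trans (g2 v)) x
  show x ⬝ᵥ x ≤ x ⬝ᵥ x + x ⬝ᵥ (afm (Z.oo k ω) (S.dl Z.c k) (g k ω) *ᵥ x)
  linarith

theorem dfm_phi (K : ℕ → ℝ) (hK : S.Sub K)
    (hT : Sp.Typ (S := Z.l.sp) (fun k (ω : (Z.l k).T.Ω) => (gau s D).φ k ((Z.l k).p.π ω) (g k ω) ≤ K k)) :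
    ∃ L : ℕ → ℝ, Z.sp.Sub L ∧ Sp.Typ (S := Z.tl.sp) (fun k (ω : (Z.l k).T.Ω) =>
      (gau Z.sys D).φ k ω (Z.dfm g k ω) ≤ L k) := by
  obtain ⟨K2, hK2, h2⟩ := (gau Z.sys D).one
  refine ⟨fun k => K2 k + K k, hK2.add (Z.Sub_sp.mp hK), ?_⟩
  refine squeeze_zero' (Eventually.of_forall fun k => Sp.mass_res_nonneg (S := Z.tl.sp) k _) ?_ hT
  filter_upwards [h2] with k a
  refine mass_res_mono (Z.l k).T.μ _ _ (Z.l k).T.nn (fun ω hω hE hcon => hE ?_)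
  have h4 : (gau Z.sys D).φ k ω (Z.dfm g k ω) = (gau Z.sys D).φ k ω 1 +
        phi (Z.sp.dl 1 k) (afm (Z.oo k ω) (S.dl Z.c k) (g k ω)) (ptf Z.sys k ω) := (gau Z.sys D).add k _ _ _
  show (gau Z.sys D).φ k ω (Z.dfm g k ω) ≤ K2 k + K k
  rw [h4]
  refine add_le_add (a _ hω) ?_
  rw [phi_afm, Z.dl_eq', ← Z.ptf_aff]
  exact hcon

include hm h1 in
/-- `H(c,s)` gives `H(0,(s-c)/(1-c))` for the zoom over a label with the form -/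
theorem Hf_down (K : ℕ → ℝ) (hK : S.Sub K)
    (hT : Sp.Typ (S := Z.l.sp) (fun k (ω : (Z.l k).T.Ω) => (gau s D).φ k ((Z.l k).p.π ω) (g k ω) ≤ K k)) (σ : ℝ)
    (hσ : ∀ e : ℝ, 0 < e → Tendsto (fun k => (Z.l k).T.pb (fun ω =>
      ¬ 2 ^ (2 * (σ - e) * (S.F k).n) ≤ sga s D k ((Z.l k).p.π ω) (g k ω))) UF (𝓝 0)) :
    Hf Z.sys D 0 ((σ - Z.c) / Z.e) := by
  obtain ⟨L, hL, hTL⟩ := Z.dfm_phi g K hK hT
  refine ⟨cutFD (gau Z.sys D) Z.tl (Z.dfm g) (Z.dfm_meas g hm),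
    cut_ad (Φ := gau Z.sys D) Z.tl (triv_DM _ _) (Z.dfm g) (Z.dfm_meas g hm) (Z.dfm_ge g h1) L hL hTL, ?_⟩
  intro e he
  have t1 := hσ (e * Z.e) (mul_pos he Z.e_pos)
  have t2 := cut_typ (Φ := gau Z.sys D) Z.tl (Z.dfm g) (Z.dfm_ge g h1) L hL hTL
  have t3 : Tendsto (fun k => (Z.l k).T.pb (fun ω => ¬ 2 ^ (2 * (σ - e * Z.e) * (S.F k).n) ≤
      sga s D k ((Z.l k).p.π ω) (g k ω)) + (Z.l k).T.pb (fun ω => ¬ Cpd ((gau Z.sys D).cp k) (Z.dfm g k ω)))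
      UF (𝓝 0) := by
    have := t1.add (show Tendsto (fun k => (Z.l k).T.pb (fun ω => ¬ Cpd ((gau Z.sys D).cp k) (Z.dfm g k ω)))
      UF (𝓝 0) from t2)
    rwa [add_zero] at this
  refine squeeze_zero' (Eventually.of_forall fun k => FSp.pb_nonneg _ _) ?_ t3
  filter_upwards [h1] with k hk
  refine le_trans (FSp.pb_mono (Z.l k).T (E' := fun ω => (¬ 2 ^ (2 * (σ - e * Z.e) * (S.F k).n) ≤
      sga s D k ((Z.l k).p.π ω) (g k ω)) ∨ ¬ Cpd ((gau Z.sys D).cp k) (Z.dfm g k ω)) ?_) (pb_or _ _ _)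
  intro ω hω hE
  by_contra hcon
  rw [not_or, not_not, not_not] at hcon
  apply hE
  obtain ⟨c1, c2⟩ := hcon
  obtain ⟨g1, g2⟩ := hk ω hω
  show 2 ^ (2 * ((σ - Z.c) / Z.e - e) * (Z.sp.F k).n) ≤
    sga Z.sys D k ω (cutm ((gau Z.sys D).cp k) (Z.dfm g k ω))
  unfold cutm
  rw [if_pos c2]
  unfold sga dfm
  rw [gam_add, gam_afm, Z.dl_eq', ← Z.ptf_aff]
  have h5 : 0 ≤ gam (Z.sp.dl 1 k) (1 : Matrix (Mon (m + 1) D) (Mon (m + 1) D) ℝ) (ptf Z.sys k ω) :=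
    gam_nonneg _ (fun x => by rw [Matrix.one_mulVec]; exact dot_self_nonneg x) _
  have h6 : (2 : ℝ) ^ (2 * ((σ - Z.c) / Z.e - e) * (Z.sp.F k).n) =
      S.dl Z.c k ^ 2 * 2 ^ (2 * (σ - e * Z.e) * (S.F k).n) := by
    have := Z.e_pos.ne'
    rw [Z.sp_n]
    unfold Sp.dl
    rw [← Real.rpow_natCast, ← Real.rpow_mul (by norm_num), ← Real.rpow_add (by norm_num)]
    congr 1
    push_cast
    field_simp
    ring
  rw [h6]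
  have h7 := mul_le_mul_of_nonneg_left c1 (sq_nonneg (S.dl Z.c k))
  unfold sga at h7
  linarith

end

end ZL

/-- THE ZOOM OF THE CANONICAL FORM: `H(c,s)` gives `H(0,(s-c)/(1-c))` -/
theorem Hf_mk {s : Sys S m} {c σ : ℝ} (h0 : 0 ≤ c) (h1 : c < 1) (hσ : Hf s D c σ)
    {x : ∀ k, FD (S.F k) (Mon (m + 1) D)} (hx : (gau s D).Opt (cA s c) (cB s) x) :
    Hf (mk h0 h1 (Gau.Ad.dm (gau s D) hx.1)).sys D 0 ((σ - c) / (1 - c)) := by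
  obtain ⟨K, hK, hT⟩ := ad_sub hx.1
  refine ZL.Hf_down (mk h0 h1 (Gau.Ad.dm (gau s D) hx.1)) (fun k => (x k).g) ?_ ?_ K hK hT σ ?_
  · intro k ω ω' a b hV hZ
    exact ((x k).meas ω ω' a b hV.1 hZ).1
  · filter_upwards [hx.1 1 one_pos] with k hk ω hω
    have h2 := (hk.2.2.1 ω hω).1
    exact ⟨h2.1, h2.2.1⟩
  · intro e he
    exact hσ.opt hx e he

end

end Pool.Agent.Helper3.ZM
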